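import Pool.Agent.Helper28.Wilf.Transfer

set_option autoImplicit false

/-!
The extended Wilf inequality for generalized numerical semigroups holds in every dimension
`d ≥ 2`, for every monomial order in which every element has finitely many predecessors.
-/

namespace Pool.Agent.Results.MP_4a5405_co.ExtendedWilfHigherDim

variable {d : ℕ}

/-- `lt` is a (strict) monomial order on `ℕ^d` in which every element has finitely many
predecessors: a strict total order, compatible with addition, with `0` as least element. -/
structure IsMonomialOrder (lt : (Fin d → ℕ) → (Fin d → ℕ) → Prop) : Prop where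
  irrefl : ∀ a, ¬ lt a a
  trans : ∀ a b c, lt a b → lt b c → lt a c
  total : ∀ a b, lt a b ∨ a = b ∨ lt b a
  add_right : ∀ a b c, lt a b → lt (a + c) (b + c)
  zero_le : ∀ a, a = 0 ∨ lt 0 a
  finite_pred : ∀ b, {a | lt a b}.Finite

/-- `f` is the Frobenius element of `S`: the largest element outside `S`. -/
def IsFrobenius (lt : (Fin d → ℕ) → (Fin d → ℕ) → Prop) (S : AddSubmonoid (Fin d → ℕ))
    (f : Fin d → ℕ) : Prop :=
  f ∉ S ∧ ∀ x, x ∉ S → x = f ∨ lt x f

/-- The minimal generators of `S`: nonzero elements that are not sums of two nonzero elements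
of `S`. -/
def minGens (S : AddSubmonoid (Fin d → ℕ)) : Set (Fin d → ℕ) :=
  {x | x ∈ S ∧ x ≠ 0 ∧ ∀ a ∈ S, ∀ b ∈ S, a + b = x → a = 0 ∨ b = 0}

/-- The embedding dimension `e(S)`: the number of minimal generators. -/
noncomputable def embDim (S : AddSubmonoid (Fin d → ℕ)) : ℕ := (minGens S).ncard

/-- The genus `g(S)`: the number of elements of `ℕ^d` outside `S`. -/
noncomputable def genus (S : AddSubmonoid (Fin d → ℕ)) : ℕ := {x | x ∉ S}.ncard

/-- `n_≺(S)`: the number of elements of `S` below `f`. -/
noncomputable def nBelow (lt : (Fin d → ℕ) → (Fin d → ℕ) → Prop) (S : AddSubmonoid (Fin d → ℕ))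
    (f : Fin d → ℕ) : ℕ := {x | x ∈ S ∧ lt x f}.ncard

/-! ### The definitions are the intended ones -/

/-- The minimal generators generate `S`. -/
theorem closure_minGens (S : AddSubmonoid (Fin d → ℕ)) :
    AddSubmonoid.closure (minGens S) = S := by
  apply le_antisymm
  · rw [AddSubmonoid.closure_le]
    exact fun x hx => hx.1
  · have key : ∀ n : ℕ, ∀ x ∈ S, ∑ i, x i = n → x ∈ AddSubmonoid.closure (minGens S) := by
      intro n
      induction n using Nat.strong_induction_on with
      | _ n ih =>
        intro x hx hn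
        by_cases h0 : x = 0
        · rw [h0]; exact zero_mem _
        by_cases hg : x ∈ minGens S
        · exact AddSubmonoid.subset_closure hg
        have hg' : ∃ a ∈ S, ∃ b ∈ S, a + b = x ∧ a ≠ 0 ∧ b ≠ 0 := by
          by_contra hcon
          push Not at hcon
          apply hg
          refine ⟨hx, h0, ?_⟩
          intro a ha b hb hab
          by_cases ha0 : a = 0
          · exact Or.inl ha0
          · exact Or.inr (hcon a ha b hb hab ha0)
        obtain ⟨a, ha, b, hb, hab, ha0, hb0⟩ := hg'
        have hpos : ∀ y : Fin d → ℕ, y ≠ 0 → 0 < ∑ i, y i := by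
          intro y hy
          obtain ⟨i, hi⟩ := Function.ne_iff.1 hy
          exact lt_of_lt_of_le (Nat.pos_of_ne_zero hi)
            (Finset.single_le_sum (f := fun i => y i) (fun _ _ => Nat.zero_le _)
              (Finset.mem_univ i))
        have hsum : ∑ i, a i + ∑ i, b i = n := by
          rw [← Finset.sum_add_distrib, ← hn, ← hab]; rfl
        have h1 := hpos a ha0
        have h2 := hpos b hb0
        rw [← hab]
        exact add_mem (ih _ (by omega) a ha rfl) (ih _ (by omega) b hb rfl)
    intro x hx
    exact key _ x hx rfl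

/-- Every generating set contains the minimal generators. -/
theorem minGens_subset (S : AddSubmonoid (Fin d → ℕ)) (G : Set (Fin d → ℕ))
    (hG : AddSubmonoid.closure G = S) : minGens S ⊆ G := by
  intro x hx
  have key : ∀ y ∈ AddSubmonoid.closure G, y ∈ minGens S → y ∈ G := by
    intro y hy
    induction hy using AddSubmonoid.closure_induction with
    | mem y hy => exact fun _ => hy
    | zero => exact fun h => absurd rfl h.2.1
    | add a b ha hb iha ihb =>
      intro h
      rcases h.2.2 a (hG ▸ ha) b (hG ▸ hb) rfl with h0 | h0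
      · rw [h0, zero_add] at h ⊢; exact ihb h
      · rw [h0, add_zero] at h ⊢; exact iha h
  exact key x (hG ▸ hx.1) hx

/-- A submonoid other than `ℕ^d` with finite complement has a Frobenius element. -/
theorem exists_frobenius {lt : (Fin d → ℕ) → (Fin d → ℕ) → Prop} (hlt : IsMonomialOrder lt)
    (S : AddSubmonoid (Fin d → ℕ)) (hS : {x | x ∉ S}.Finite) (hne : S ≠ ⊤) :
    ∃ f, IsFrobenius lt S f := by
  obtain ⟨x0, hx0⟩ : ∃ x, x ∉ S := by
    by_contra hcon
    push Not at hcon
    exact hne ((AddSubmonoid.eq_top_iff' S).2 hcon)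
  have key : ∀ F : Finset (Fin d → ℕ), F.Nonempty → ∃ f ∈ F, ∀ x ∈ F, x = f ∨ lt x f := by
    intro F hF
    induction hF using Finset.Nonempty.cons_induction with
    | singleton a => exact ⟨a, Finset.mem_singleton_self a, fun x hx =>
        Or.inl (Finset.mem_singleton.1 hx)⟩
    | cons a s ha hs ih =>
      obtain ⟨f, hf, hfm⟩ := ih
      rcases hlt.total a f with h | h | h
      · refine ⟨f, Finset.mem_cons.2 (Or.inr hf), ?_⟩
        intro x hx
        rcases Finset.mem_cons.1 hx with rfl | hx
        · exact Or.inr h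
        · exact hfm x hx
      · exact absurd (h ▸ hf) ha
      · refine ⟨a, Finset.mem_cons.2 (Or.inl rfl), ?_⟩
        intro x hx
        rcases Finset.mem_cons.1 hx with rfl | hx
        · exact Or.inl rfl
        · rcases hfm x hx with rfl | hxf
          · exact Or.inr h
          · exact Or.inr (hlt.trans _ _ _ hxf h)
  obtain ⟨f, hf, hfm⟩ := key hS.toFinset ⟨x0, by simpa using hx0⟩
  refine ⟨f, by simpa using hf, ?_⟩
  intro x hx
  exact hfm x (by simpa using hx)

/-- The minimal generating set is finite. -/
theorem minGens_finite (hd : 2 ≤ d) (S : AddSubmonoid (Fin d → ℕ)) (hS : {x | x ∉ S}.Finite)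
    (lt : (Fin d → ℕ) → (Fin d → ℕ) → Prop) (hlt : IsMonomialOrder lt)
    (f : Fin d → ℕ) (hf : IsFrobenius lt S f) : (minGens S).Finite :=
  (Pool.Agent.Helper28.Wilf.transfer d hd S hS lt hlt.irrefl hlt.trans hlt.total hlt.add_right
    hlt.zero_le hlt.finite_pred f hf.1 hf.2).1

/-- The extended Wilf inequality in every dimension `d ≥ 2`, in the stronger form
`n e ≥ (n + g) + 1 + ⌊n / 2⌋`. -/
theorem result (d : ℕ) (hd : 2 ≤ d) (S : AddSubmonoid (Fin d → ℕ))
    (hS : {x | x ∉ S}.Finite)
    (lt : (Fin d → ℕ) → (Fin d → ℕ) → Prop) (hlt : IsMonomialOrder lt)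
    (f : Fin d → ℕ) (hf : IsFrobenius lt S f) :
    nBelow lt S f * embDim S ≥ (nBelow lt S f + genus S) + 1 + nBelow lt S f / 2 := by
  have h := (Pool.Agent.Helper28.Wilf.transfer d hd S hS lt hlt.irrefl hlt.trans hlt.total
    hlt.add_right hlt.zero_le hlt.finite_pred f hf.1 hf.2).2
  change 2 * (nBelow lt S f + genus S) + nBelow lt S f + 1 ≤ 2 * (nBelow lt S f * embDim S) at h
  omega

end Pool.Agent.Results.MP_4a5405_co.ExtendedWilfHigherDim
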