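import Pool.Agent.Helper21.UW.Main
import Mathlib.Analysis.SpecialFunctions.Log.Basic
import Mathlib.Analysis.SpecialFunctions.Log.Deriv

set_option autoImplicit false

/-!
A uniform inequality of Wilf type, valid for every numerical semigroup.
-/

namespace Pool.Agent.Results.MP_4a5405_co.UniformWilfInequality

/-- `F` is the Frobenius number of `S`: the largest natural number outside `S`. -/
def IsFrobenius (S : AddSubmonoid ℕ) (F : ℕ) : Prop := F ∉ S ∧ ∀ n, F < n → n ∈ S

/-- The minimal generators of `S`: nonzero elements that are not sums of two nonzero elements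
of `S`. -/
def minGens (S : AddSubmonoid ℕ) : Set ℕ :=
  {x | x ∈ S ∧ x ≠ 0 ∧ ∀ a ∈ S, ∀ b ∈ S, a + b = x → a = 0 ∨ b = 0}

/-- The embedding dimension `e(S)`: the number of minimal generators. -/
noncomputable def embDim (S : AddSubmonoid ℕ) : ℕ := (minGens S).ncard

/-- The genus `g(S)`: the number of natural numbers outside `S`. -/
noncomputable def genus (S : AddSubmonoid ℕ) : ℕ := {x | x ∉ S}.ncard

/-- `n(S)`: the number of elements of `S` below `F`. -/
noncomputable def nBelow (S : AddSubmonoid ℕ) (F : ℕ) : ℕ := {x | x ∈ S ∧ x < F}.ncard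

/-! ### The definitions are the intended ones -/

/-- The minimal generators generate `S`. -/
theorem closure_minGens (S : AddSubmonoid ℕ) : AddSubmonoid.closure (minGens S) = S := by
  apply le_antisymm
  · rw [AddSubmonoid.closure_le]
    exact fun x hx => hx.1
  · have key : ∀ n : ℕ, ∀ x ∈ S, x ≤ n → x ∈ AddSubmonoid.closure (minGens S) := by
      intro n
      induction n with
      | zero =>
        intro x _ hn
        have : x = 0 := by omega
        rw [this]
        exact zero_mem _
      | succ n ih =>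
        intro x hx hn
        by_cases h0 : x = 0
        · rw [h0]; exact zero_mem _
        by_cases hg : x ∈ minGens S
        · exact AddSubmonoid.subset_closure hg
        have hg' : ∃ a ∈ S, ∃ b ∈ S, a + b = x ∧ a ≠ 0 ∧ b ≠ 0 := by
          by_contra hcon
          push Not at hcon
          apply hg
          refine ⟨hx, h0, ?_⟩
          intro a ha b hb hab
          by_cases ha0 : a = 0
          · exact Or.inl ha0
          · exact Or.inr (hcon a ha b hb hab ha0)
        obtain ⟨a, ha, b, hb, hab, ha0, hb0⟩ := hg'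
        rw [← hab]
        exact add_mem (ih a ha (by omega)) (ih b hb (by omega))
    intro x hx
    exact key x x hx le_rfl

/-- Every generating set contains the minimal generators. -/
theorem minGens_subset (S : AddSubmonoid ℕ) (G : Set ℕ) (hG : AddSubmonoid.closure G = S) :
    minGens S ⊆ G := by
  intro x hx
  have key : ∀ y ∈ AddSubmonoid.closure G, y ∈ minGens S → y ∈ G := by
    intro y hy
    induction hy using AddSubmonoid.closure_induction with
    | mem y hy => exact fun _ => hy
    | zero => exact fun h => absurd rfl h.2.1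
    | add a b ha hb iha ihb =>
      intro h
      rcases h.2.2 a (hG ▸ ha) b (hG ▸ hb) rfl with h0 | h0
      · rw [h0, zero_add] at h ⊢; exact ihb h
      · rw [h0, add_zero] at h ⊢; exact iha h
  exact key x (hG ▸ hx.1) hx

/-- A submonoid other than `ℕ` with finite complement has a Frobenius number. -/
theorem exists_frobenius (S : AddSubmonoid ℕ) (hS : {x | x ∉ S}.Finite) (hne : S ≠ ⊤) :
    ∃ F, IsFrobenius S F := by
  have hne' : {x | x ∉ S}.Nonempty := by
    by_contra hcon
    rw [Set.not_nonempty_iff_eq_empty] at hcon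
    refine hne ((AddSubmonoid.eq_top_iff' S).2 fun x => ?_)
    by_contra hx
    have : x ∈ {x | x ∉ S} := hx
    rw [hcon] at this
    exact this
  have h1 := Nat.sSup_mem hne' hS.bddAbove
  refine ⟨sSup {x | x ∉ S}, h1, fun n hn => ?_⟩
  by_contra hx
  have := le_csSup hS.bddAbove (show n ∈ {x | x ∉ S} from hx)
  omega

variable {S : AddSubmonoid ℕ} {F : ℕ}

theorem IsFrobenius.finite (h : IsFrobenius S F) : {x | x ∉ S}.Finite := by
  refine (Set.finite_Iic F).subset fun x hx => ?_
  by_contra hcon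
  rw [Set.mem_Iic] at hcon
  exact hx (h.2 x (by omega))

theorem IsFrobenius.cond_eq (h : IsFrobenius S F) : Pool.Agent.Helper67.WI.cond S = F + 1 := by
  unfold Pool.Agent.Helper67.WI.cond
  apply le_antisymm
  · exact Nat.sInf_le (fun n hn => h.2 n (by omega))
  · refine le_csInf ⟨F + 1, fun n hn => h.2 n (by omega)⟩ fun b hb => ?_
    by_contra hcon
    exact h.1 (hb F (by omega))

theorem IsFrobenius.left_eq (h : IsFrobenius S F) : Pool.Agent.Helper67.WI.left S = nBelow S F := by
  unfold Pool.Agent.Helper67.WI.left nBelow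
  rw [h.cond_eq]
  congr 1
  ext x
  constructor
  · rintro ⟨h1, h2⟩
    refine ⟨h1, ?_⟩
    rcases Nat.lt_or_ge x F with h3 | h3
    · exact h3
    · have : x = F := by omega
      exact absurd (this ▸ h1) h.1
  · rintro ⟨h1, h2⟩
    exact ⟨h1, by omega⟩

theorem embDim_eq (S : AddSubmonoid ℕ) : Pool.Agent.Helper67.WI.embDim S = embDim S := by
  unfold Pool.Agent.Helper67.WI.embDim embDim
  congr 1
  ext g
  constructor
  · rintro ⟨h1, h2, h3⟩
    refine ⟨h1, h2, fun a ha b hb hab => ?_⟩
    by_contra hcon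
    push Not at hcon
    exact h3 a ha b hb hcon.1 hcon.2 hab
  · rintro ⟨h1, h2, h3⟩
    refine ⟨h1, h2, fun a ha b hb ha0 hb0 hab => ?_⟩
    rcases h3 a ha b hb hab with h | h
    · exact ha0 h
    · exact hb0 h

/-- `N(F) = n(S) + g(S) = F + 1`. -/
theorem nBelow_add_genus (h : IsFrobenius S F) : nBelow S F + genus S = F + 1 := by
  classical
  have h1 : {x | x ∈ S ∧ x < F} = (((Finset.range (F + 1)).filter fun x => x ∈ S : Finset ℕ) : Set ℕ) := by
    ext x
    rw [Finset.coe_filter]
    constructor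
    · rintro ⟨h1, h2⟩
      exact ⟨Finset.mem_range.2 (by omega), h1⟩
    · rintro ⟨h1, h2⟩
      refine ⟨h2, ?_⟩
      have h4 := Finset.mem_range.1 h1
      rcases Nat.lt_or_ge x F with h3 | h3
      · exact h3
      · have : x = F := by omega
        exact absurd (this ▸ h2) h.1
  have h2 : {x | x ∉ S} = (((Finset.range (F + 1)).filter fun x => ¬ x ∈ S : Finset ℕ) : Set ℕ) := by
    ext x
    rw [Finset.coe_filter]
    constructor
    · intro h1
      refine ⟨Finset.mem_range.2 ?_, h1⟩
      by_contra hcon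
      exact h1 (h.2 x (by omega))
    · rintro ⟨h1, h2⟩
      exact h2
  unfold nBelow genus
  rw [h1, h2, Set.ncard_coe_finset, Set.ncard_coe_finset, Finset.card_filter_add_card_filter_not,
    Finset.card_range]

/-- the multiplicity -/
theorem mult_eq {m : ℕ} (hm : IsLeast {x | x ∈ S ∧ x ≠ 0} m) : Pool.Agent.Helper67.WI.mult S = m := by
  unfold Pool.Agent.Helper67.WI.mult
  exact hm.csInf_eq

/-- the harmonic sum -/
theorem harm (m : ℕ) (hm : 1 ≤ m) :
    Real.log 2 ≤ ∑ u ∈ Finset.range m, 1 / ((m : ℝ) + u) := by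
  have key : ∀ k : ℕ, Real.log (m + k) - Real.log m ≤ ∑ u ∈ Finset.range k, 1 / ((m : ℝ) + u) := by
    intro k
    induction k with
    | zero => simp
    | succ k ih =>
      rw [Finset.sum_range_succ]
      have hpos : (0 : ℝ) < (m : ℝ) + k := by
        have : (1 : ℝ) ≤ m := by exact_mod_cast hm
        positivity
      have h1 : Real.log ((m : ℝ) + (k + 1 : ℕ)) - Real.log (m + k) ≤ 1 / ((m : ℝ) + k) := by
        have h2 := Real.log_le_sub_one_of_pos
          (show (0 : ℝ) < ((m : ℝ) + (k + 1 : ℕ)) / (m + k) by positivity)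
        rw [Real.log_div (by positivity) (by positivity)] at h2
        have h3 : ((m : ℝ) + (k + 1 : ℕ)) / (m + k) - 1 = 1 / ((m : ℝ) + k) := by
          push_cast
          field_simp
          ring
        linarith
      linarith
  have h := key m
  have hm0 : (0 : ℝ) < m := by exact_mod_cast hm
  have h2 : Real.log ((m : ℝ) + m) - Real.log m = Real.log 2 := by
    rw [← Real.log_div (by positivity) (by positivity)]
    congr 1
    field_simp
    ring
  linarith

/-- **A uniform inequality of Wilf type.**  For every numerical semigroup `S ≠ ℕ` with Frobenius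
number `F` and multiplicity `m`, `e(S) n(S) ≥ ∑_{u < m} ⌈(F + 1 + u) / (m + u)⌉`.  Hence
`e(S) n(S) ≥ (log 2) (F + 1) + (1 - log 2) m`, and
`e(S) n(S) ≥ 3 m + (F + 1 - 3 m) / 2` when `3 m ≤ F + 1 ≤ 4 m`
(and Wilf's inequality when `F + 1 ≤ 3 m`).  In particular `e(S) n(S) ≥ 0.69 (F + 1)`, and
`e(S) n(S) ≥ (7 / 8) (F + 1)` when `3 m ≤ F + 1 ≤ 4 m`. -/
theorem result (S : AddSubmonoid ℕ) (F m : ℕ) (hF : IsFrobenius S F)
    (hm : IsLeast {x | x ∈ S ∧ x ≠ 0} m) :
    ∑ u ∈ Finset.range m, ⌈((F : ℚ) + 1 + u) / (m + u)⌉₊ ≤ nBelow S F * embDim S ∧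
    Real.log 2 * (F + 1) + (1 - Real.log 2) * m ≤ (nBelow S F : ℝ) * embDim S ∧
    (3 * m ≤ F + 1 → F + 1 ≤ 4 * m → 3 * m + (F + 1) ≤ 2 * (nBelow S F * embDim S)) ∧
    69 * (F + 1) ≤ 100 * (nBelow S F * embDim S) ∧
    (3 * m ≤ F + 1 → F + 1 ≤ 4 * m → 7 * (F + 1) ≤ 8 * (nBelow S F * embDim S)) := by
  have hc : 1 ≤ Pool.Agent.Helper67.WI.cond S := by rw [hF.cond_eq]; omega
  have h := Pool.Agent.Helper21.UW.uniform (S := S) hF.finite hc
  rw [hF.cond_eq, hF.left_eq, mult_eq hm, embDim_eq] at h
  have hm1 : 1 ≤ m := Nat.one_le_iff_ne_zero.2 hm.1.2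
  have hmF : m ≤ F + 1 := by
    by_contra hcon
    have h1 := hm.2 ⟨hF.2 (F + 1) (by omega), by omega⟩
    omega
  have h0 : ∑ u ∈ Finset.range m, ⌈((F : ℚ) + 1 + u) / (m + u)⌉₊ ≤ nBelow S F * embDim S := by
    refine le_trans (Finset.sum_le_sum fun u _ => ?_) h
    push_cast
    exact le_rfl
  have hA : Real.log 2 * (F + 1) + (1 - Real.log 2) * m ≤ (nBelow S F : ℝ) * embDim S := by
    have h1 : ∑ u ∈ Finset.range m, (((F : ℝ) + 1 + u) / (m + u)) ≤
        (nBelow S F : ℝ) * embDim S := by
      have h2 : ((∑ u ∈ Finset.range m, ⌈((F : ℚ) + 1 + u) / (m + u)⌉₊ : ℕ) : ℝ) ≤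
          ((nBelow S F * embDim S : ℕ) : ℝ) := by exact_mod_cast h0
      push_cast at h2
      refine le_trans (Finset.sum_le_sum fun u _ => ?_) h2
      have h3 := Nat.le_ceil (((F : ℚ) + 1 + u) / (m + u))
      have h4 : (((((F : ℚ) + 1 + u) / (m + u) : ℚ)) : ℝ) ≤
          ((⌈((F : ℚ) + 1 + u) / (m + u)⌉₊ : ℚ) : ℝ) := by exact_mod_cast h3
      push_cast at h4
      exact h4
    have hm0 : (0 : ℝ) < m := by exact_mod_cast hm1
    have h5 : ∑ u ∈ Finset.range m, (((F : ℝ) + 1 + u) / (m + u)) =
        m + ((F : ℝ) + 1 - m) * ∑ u ∈ Finset.range m, 1 / ((m : ℝ) + u) := by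
      rw [Finset.mul_sum]
      have h6 : (m : ℝ) = ∑ _u ∈ Finset.range m, (1 : ℝ) := by simp
      conv_rhs => rw [h6, ← Finset.sum_add_distrib]
      refine Finset.sum_congr rfl fun u _ => ?_
      rw [← h6]
      have h7 : (m : ℝ) + u ≠ 0 := by positivity
      field_simp
      ring
    have h8 := harm m hm1
    have h9 : (0 : ℝ) ≤ (F : ℝ) + 1 - m := by
      have : ((m : ℕ) : ℝ) ≤ ((F + 1 : ℕ) : ℝ) := by exact_mod_cast hmF
      push_cast at this
      linarith
    rw [h5] at h1
    nlinarith [mul_le_mul_of_nonneg_left h8 h9]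
  have hB : 3 * m ≤ F + 1 → F + 1 ≤ 4 * m → 3 * m + (F + 1) ≤ 2 * (nBelow S F * embDim S) := by
    intro h3 h4
    set N := F + 1 - 3 * m with hN
    have h5 : ∀ u ∈ Finset.range m, (3 + if 2 * u < N then 1 else 0) ≤
        ⌈((F : ℚ) + 1 + u) / (m + u)⌉₊ := by
      intro u hu
      have hu' := Finset.mem_range.1 hu
      have hpos : (0 : ℚ) < (m : ℚ) + u := by
        have : (1 : ℚ) ≤ m := by exact_mod_cast hm1
        positivity
      split_ifs with h6
      · have h7 : (3 : ℕ) < ⌈((F : ℚ) + 1 + u) / (m + u)⌉₊ := by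
          rw [Nat.lt_ceil, lt_div_iff₀ hpos]
          have : 3 * (m + u) < F + 1 + u := by omega
          exact_mod_cast this
        omega
      · have h7 : (2 : ℕ) < ⌈((F : ℚ) + 1 + u) / (m + u)⌉₊ := by
          rw [Nat.lt_ceil, lt_div_iff₀ hpos]
          have : 2 * (m + u) < F + 1 + u := by omega
          exact_mod_cast this
        omega
    have h6 := (Finset.sum_le_sum h5).trans h0
    rw [Finset.sum_add_distrib, Finset.sum_const, Finset.card_range, smul_eq_mul,
      ← Finset.card_filter] at h6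
    have h7 : N ≤ 2 * ((Finset.range m).filter fun u => 2 * u < N).card := by
      have h8 : Finset.range ((N + 1) / 2) ⊆ (Finset.range m).filter fun u => 2 * u < N := by
        intro u hu
        have := Finset.mem_range.1 hu
        exact Finset.mem_filter.2 ⟨Finset.mem_range.2 (by omega), by omega⟩
      have h9 := Finset.card_le_card h8
      rw [Finset.card_range] at h9
      omega
    omega
  refine ⟨h0, hA, hB, ?_, fun h3 h4 => ?_⟩
  · have h1 := Real.log_two_gt_d9
    have h2 := Real.log_two_lt_d9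
    have h3 : (0 : ℝ) ≤ (m : ℝ) := Nat.cast_nonneg m
    have h4 : (0 : ℝ) ≤ (F : ℝ) := Nat.cast_nonneg F
    have h5 : (69 : ℝ) * (F + 1) ≤ 100 * ((nBelow S F : ℝ) * embDim S) := by nlinarith
    exact_mod_cast h5
  · have h1 := hB h3 h4
    omega

end Pool.Agent.Results.MP_4a5405_co.UniformWilfInequality
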