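import Pool.Agent.Helper21.W4.Final

set_option autoImplicit false

/-!
Wilf's conjecture (the case `d = 1` of the extended Wilf inequality) holds for every numerical
semigroup of embedding dimension four.
-/

namespace Pool.Agent.Results.MP_4a5405_co.WilfEmbeddingDimensionFour

/-- `F` is the Frobenius number of `S`: the largest natural number outside `S`. -/
def IsFrobenius (S : AddSubmonoid ℕ) (F : ℕ) : Prop := F ∉ S ∧ ∀ n, F < n → n ∈ S

/-- The minimal generators of `S`: nonzero elements that are not sums of two nonzero elements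
of `S`. -/
def minGens (S : AddSubmonoid ℕ) : Set ℕ :=
  {x | x ∈ S ∧ x ≠ 0 ∧ ∀ a ∈ S, ∀ b ∈ S, a + b = x → a = 0 ∨ b = 0}

/-- The embedding dimension `e(S)`: the number of minimal generators. -/
noncomputable def embDim (S : AddSubmonoid ℕ) : ℕ := (minGens S).ncard

/-- The genus `g(S)`: the number of natural numbers outside `S`. -/
noncomputable def genus (S : AddSubmonoid ℕ) : ℕ := {x | x ∉ S}.ncard

/-- `n(S)`: the number of elements of `S` below `F`. -/
noncomputable def nBelow (S : AddSubmonoid ℕ) (F : ℕ) : ℕ := {x | x ∈ S ∧ x < F}.ncard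

/-! ### The definitions are the intended ones -/

/-- The minimal generators generate `S`. -/
theorem closure_minGens (S : AddSubmonoid ℕ) : AddSubmonoid.closure (minGens S) = S := by
  apply le_antisymm
  · rw [AddSubmonoid.closure_le]
    exact fun x hx => hx.1
  · have key : ∀ n : ℕ, ∀ x ∈ S, x ≤ n → x ∈ AddSubmonoid.closure (minGens S) := by
      intro n
      induction n with
      | zero =>
        intro x _ hn
        have : x = 0 := by omega
        rw [this]
        exact zero_mem _
      | succ n ih =>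
        intro x hx hn
        by_cases h0 : x = 0
        · rw [h0]; exact zero_mem _
        by_cases hg : x ∈ minGens S
        · exact AddSubmonoid.subset_closure hg
        have hg' : ∃ a ∈ S, ∃ b ∈ S, a + b = x ∧ a ≠ 0 ∧ b ≠ 0 := by
          by_contra hcon
          push Not at hcon
          apply hg
          refine ⟨hx, h0, ?_⟩
          intro a ha b hb hab
          by_cases ha0 : a = 0
          · exact Or.inl ha0
          · exact Or.inr (hcon a ha b hb hab ha0)
        obtain ⟨a, ha, b, hb, hab, ha0, hb0⟩ := hg'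
        rw [← hab]
        exact add_mem (ih a ha (by omega)) (ih b hb (by omega))
    intro x hx
    exact key x x hx le_rfl

/-- Every generating set contains the minimal generators. -/
theorem minGens_subset (S : AddSubmonoid ℕ) (G : Set ℕ) (hG : AddSubmonoid.closure G = S) :
    minGens S ⊆ G := by
  intro x hx
  have key : ∀ y ∈ AddSubmonoid.closure G, y ∈ minGens S → y ∈ G := by
    intro y hy
    induction hy using AddSubmonoid.closure_induction with
    | mem y hy => exact fun _ => hy
    | zero => exact fun h => absurd rfl h.2.1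
    | add a b ha hb iha ihb =>
      intro h
      rcases h.2.2 a (hG ▸ ha) b (hG ▸ hb) rfl with h0 | h0
      · rw [h0, zero_add] at h ⊢; exact ihb h
      · rw [h0, add_zero] at h ⊢; exact iha h
  exact key x (hG ▸ hx.1) hx

/-- A submonoid other than `ℕ` with finite complement has a Frobenius number. -/
theorem exists_frobenius (S : AddSubmonoid ℕ) (hS : {x | x ∉ S}.Finite) (hne : S ≠ ⊤) :
    ∃ F, IsFrobenius S F := by
  have hne' : {x | x ∉ S}.Nonempty := by
    by_contra hcon
    rw [Set.not_nonempty_iff_eq_empty] at hcon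
    refine hne ((AddSubmonoid.eq_top_iff' S).2 fun x => ?_)
    by_contra hx
    have : x ∈ {x | x ∉ S} := hx
    rw [hcon] at this
    exact this
  have h1 := Nat.sSup_mem hne' hS.bddAbove
  refine ⟨sSup {x | x ∉ S}, h1, fun n hn => ?_⟩
  by_contra hx
  have := le_csSup hS.bddAbove (show n ∈ {x | x ∉ S} from hx)
  omega

variable {S : AddSubmonoid ℕ} {F : ℕ}

theorem IsFrobenius.finite (h : IsFrobenius S F) : {x | x ∉ S}.Finite := by
  refine (Set.finite_Iic F).subset fun x hx => ?_
  by_contra hcon
  rw [Set.mem_Iic] at hcon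
  exact hx (h.2 x (by omega))

theorem IsFrobenius.cond_eq (h : IsFrobenius S F) : Pool.Agent.Helper67.WI.cond S = F + 1 := by
  unfold Pool.Agent.Helper67.WI.cond
  apply le_antisymm
  · exact Nat.sInf_le (fun n hn => h.2 n (by omega))
  · refine le_csInf ⟨F + 1, fun n hn => h.2 n (by omega)⟩ fun b hb => ?_
    by_contra hcon
    exact h.1 (hb F (by omega))

theorem IsFrobenius.left_eq (h : IsFrobenius S F) : Pool.Agent.Helper67.WI.left S = nBelow S F := by
  unfold Pool.Agent.Helper67.WI.left nBelow
  rw [h.cond_eq]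
  congr 1
  ext x
  constructor
  · rintro ⟨h1, h2⟩
    refine ⟨h1, ?_⟩
    rcases Nat.lt_or_ge x F with h3 | h3
    · exact h3
    · have : x = F := by omega
      exact absurd (this ▸ h1) h.1
  · rintro ⟨h1, h2⟩
    exact ⟨h1, by omega⟩

theorem embDim_eq (S : AddSubmonoid ℕ) : Pool.Agent.Helper67.WI.embDim S = embDim S := by
  unfold Pool.Agent.Helper67.WI.embDim embDim
  congr 1
  ext g
  constructor
  · rintro ⟨h1, h2, h3⟩
    refine ⟨h1, h2, fun a ha b hb hab => ?_⟩
    by_contra hcon
    push Not at hcon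
    exact h3 a ha b hb hcon.1 hcon.2 hab
  · rintro ⟨h1, h2, h3⟩
    refine ⟨h1, h2, fun a ha b hb ha0 hb0 hab => ?_⟩
    rcases h3 a ha b hb hab with h | h
    · exact ha0 h
    · exact hb0 h

/-- `N(F) = n(S) + g(S) = F + 1`. -/
theorem nBelow_add_genus (h : IsFrobenius S F) : nBelow S F + genus S = F + 1 := by
  classical
  have h1 : {x | x ∈ S ∧ x < F} = (((Finset.range (F + 1)).filter fun x => x ∈ S : Finset ℕ) : Set ℕ) := by
    ext x
    rw [Finset.coe_filter]
    constructor
    · rintro ⟨h1, h2⟩
      exact ⟨Finset.mem_range.2 (by omega), h1⟩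
    · rintro ⟨h1, h2⟩
      refine ⟨h2, ?_⟩
      have h4 := Finset.mem_range.1 h1
      rcases Nat.lt_or_ge x F with h3 | h3
      · exact h3
      · have : x = F := by omega
        exact absurd (this ▸ h2) h.1
  have h2 : {x | x ∉ S} = (((Finset.range (F + 1)).filter fun x => ¬ x ∈ S : Finset ℕ) : Set ℕ) := by
    ext x
    rw [Finset.coe_filter]
    constructor
    · intro h1
      refine ⟨Finset.mem_range.2 ?_, h1⟩
      by_contra hcon
      exact h1 (h.2 x (by omega))
    · rintro ⟨h1, h2⟩
      exact h2
  unfold nBelow genus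
  rw [h1, h2, Set.ncard_coe_finset, Set.ncard_coe_finset, Finset.card_filter_add_card_filter_not,
    Finset.card_range]

/-- If `4 ∈ S` and `4 n(S) = F + 1` then `S` consists of the multiples of four and the numbers
above `F`, and `F + 1` is a multiple of four. -/
theorem eq_case (h : IsFrobenius S F) (h4 : 4 ∈ S) (heq : nBelow S F * 4 = F + 1) :
    ∃ k, 1 ≤ k ∧ ∀ x, x ∈ S ↔ (4 ∣ x ∨ 4 * k ≤ x) := by
  classical
  set k := nBelow S F with hk
  have hk1 : 1 ≤ k := by omega
  have hmul : ∀ j, 4 * j ∈ S := by
    intro j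
    have := S.nsmul_mem h4 j
    rwa [smul_eq_mul, mul_comm] at this
  have hset : {x | x ∈ S ∧ x < F} = (((Finset.range F).filter fun x => x ∈ S : Finset ℕ) : Set ℕ) := by
    ext x
    rw [Finset.coe_filter]
    exact ⟨fun h => ⟨Finset.mem_range.2 h.2, h.1⟩, fun h => ⟨h.2, Finset.mem_range.1 h.1⟩⟩
  have hcard : ((Finset.range F).filter fun x => x ∈ S).card = k := by
    rw [hk]
    unfold nBelow
    rw [hset, Set.ncard_coe_finset]
  have hsub : (Finset.range k).image (fun j => 4 * j) ⊆ (Finset.range F).filter fun x => x ∈ S := by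
    intro x hx
    obtain ⟨j, hj, rfl⟩ := Finset.mem_image.1 hx
    have := Finset.mem_range.1 hj
    exact Finset.mem_filter.2 ⟨Finset.mem_range.2 (by omega), hmul j⟩
  have hinj : Function.Injective (fun j : ℕ => 4 * j) := fun a b h => by
    have : 4 * a = 4 * b := h
    omega
  have heq2 : (Finset.range k).image (fun j => 4 * j) = (Finset.range F).filter fun x => x ∈ S :=
    Finset.eq_of_subset_of_card_le hsub (by
      rw [hcard, Finset.card_image_of_injective _ hinj, Finset.card_range])
  refine ⟨k, hk1, fun x => ⟨fun hx => ?_, fun hx => ?_⟩⟩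
  · by_cases hxk : 4 * k ≤ x
    · exact Or.inr hxk
    · left
      have hxF : x < F := by
        rcases Nat.lt_or_ge x F with h1 | h1
        · exact h1
        · have : x = F := by omega
          exact absurd (this ▸ hx) h.1
      have : x ∈ (Finset.range k).image (fun j => 4 * j) := by
        rw [heq2]
        exact Finset.mem_filter.2 ⟨Finset.mem_range.2 hxF, hx⟩
      obtain ⟨j, _, rfl⟩ := Finset.mem_image.1 this
      exact ⟨j, rfl⟩
  · rcases hx with ⟨j, rfl⟩ | hx
    · exact hmul j
    · exact h.2 x (by omega)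

/-- The semigroups `4ℕ ∪ [4k, ∞)` satisfy `4 n(S) = F + 1`. -/
theorem eq_case' (h : IsFrobenius S F) {k : ℕ} (hk : 1 ≤ k)
    (hx : ∀ x, x ∈ S ↔ (4 ∣ x ∨ 4 * k ≤ x)) : nBelow S F * 4 = F + 1 := by
  classical
  have hF : F = 4 * k - 1 := by
    have h1 : ¬ (4 ∣ F ∨ 4 * k ≤ F) := fun hcon => h.1 ((hx F).2 hcon)
    push Not at h1
    by_contra hcon
    have h2 := (hx (4 * k - 1)).1 (h.2 _ (by omega))
    rcases h2 with h3 | h3 <;> omega
  have hset : {x | x ∈ S ∧ x < F} = (((Finset.range k).image (fun j => 4 * j) : Finset ℕ) : Set ℕ) := by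
    ext x
    rw [Finset.mem_coe, Finset.mem_image]
    constructor
    · rintro ⟨h1, h2⟩
      rcases (hx x).1 h1 with ⟨j, rfl⟩ | h3
      · exact ⟨j, Finset.mem_range.2 (by omega), rfl⟩
      · omega
    · rintro ⟨j, hj, rfl⟩
      have := Finset.mem_range.1 hj
      exact ⟨(hx _).2 (Or.inl ⟨j, rfl⟩), by omega⟩
  have hinj : Function.Injective (fun j : ℕ => 4 * j) := fun a b h => by
    have : 4 * a = 4 * b := h
    omega
  unfold nBelow
  rw [hset, Set.ncard_coe_finset, Finset.card_image_of_injective _ hinj, Finset.card_range]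
  omega

/-- **Wilf's conjecture holds in embedding dimension four**: `4 n(S) ≥ n(S) + g(S) = F(S) + 1`, and
equality holds if and only if `S = 4ℕ ∪ [4k, ∞)` for some `k ≥ 1`. -/
theorem result (S : AddSubmonoid ℕ) (F : ℕ) (he : embDim S = 4) (hF : IsFrobenius S F) :
    nBelow S F * 4 ≥ nBelow S F + genus S ∧
    (nBelow S F * 4 = nBelow S F + genus S ↔
      ∃ k, 1 ≤ k ∧ ∀ x, x ∈ S ↔ (4 ∣ x ∨ 4 * k ≤ x)) := by
  have hc : 1 ≤ Pool.Agent.Helper67.WI.cond S := by rw [hF.cond_eq]; omega
  have he' : Pool.Agent.Helper67.WI.embDim S = 4 := by rw [embDim_eq]; exact he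
  have h := Pool.Agent.Helper21.W4.wilf4 S hF.finite hc he'
  have h2 := nBelow_add_genus hF
  rw [hF.cond_eq, hF.left_eq] at h
  refine ⟨by omega, fun heq => ?_, fun ⟨k, hk, hx⟩ => ?_⟩
  · have hm : Pool.Agent.Helper67.WI.mult S = 4 := by
      have h4 := Pool.Agent.Helper21.W4.four_le_mult S hF.finite hc he'
      by_contra hcon
      have hs := Pool.Agent.Helper21.W4.wilf4_strict S hF.finite hc he' (by omega)
      rw [hF.cond_eq, hF.left_eq] at hs
      omega
    have h4 : 4 ∈ S := by
      have := Pool.Agent.Helper67.WI.mult_mem hF.finite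
      rwa [hm] at this
    exact eq_case hF h4 (by omega)
  · have := eq_case' hF hk hx
    omega

end Pool.Agent.Results.MP_4a5405_co.WilfEmbeddingDimensionFour
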