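import Pool.Agent.Helper67.WI.Final

set_option autoImplicit false

/-!
Wilf's inequality (the case `d = 1` of the extended Wilf inequality) holds for all but finitely
many numerical semigroups of each embedding dimension.
-/

namespace Pool.Agent.Results.MP_4a5405_co.WilfFixedEmbeddingDimension

/-- `F` is the Frobenius number of `S`: the largest natural number outside `S`. -/
def IsFrobenius (S : AddSubmonoid ℕ) (F : ℕ) : Prop := F ∉ S ∧ ∀ n, F < n → n ∈ S

/-- The minimal generators of `S`: nonzero elements that are not sums of two nonzero elements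
of `S`. -/
def minGens (S : AddSubmonoid ℕ) : Set ℕ :=
  {x | x ∈ S ∧ x ≠ 0 ∧ ∀ a ∈ S, ∀ b ∈ S, a + b = x → a = 0 ∨ b = 0}

/-- The embedding dimension `e(S)`: the number of minimal generators. -/
noncomputable def embDim (S : AddSubmonoid ℕ) : ℕ := (minGens S).ncard

/-- The genus `g(S)`: the number of natural numbers outside `S`. -/
noncomputable def genus (S : AddSubmonoid ℕ) : ℕ := {x | x ∉ S}.ncard

/-- `n(S)`: the number of elements of `S` below `F`. -/
noncomputable def nBelow (S : AddSubmonoid ℕ) (F : ℕ) : ℕ := {x | x ∈ S ∧ x < F}.ncard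

/-- The multiplicity: the smallest nonzero element of `S`. -/
noncomputable def mult (S : AddSubmonoid ℕ) : ℕ := sInf {s | s ∈ S ∧ s ≠ 0}

/-! ### The definitions are the intended ones -/

/-- The minimal generators generate `S`. -/
theorem closure_minGens (S : AddSubmonoid ℕ) : AddSubmonoid.closure (minGens S) = S := by
  apply le_antisymm
  · rw [AddSubmonoid.closure_le]
    exact fun x hx => hx.1
  · have key : ∀ n : ℕ, ∀ x ∈ S, x ≤ n → x ∈ AddSubmonoid.closure (minGens S) := by
      intro n
      induction n with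
      | zero =>
        intro x _ hn
        have : x = 0 := by omega
        rw [this]
        exact zero_mem _
      | succ n ih =>
        intro x hx hn
        by_cases h0 : x = 0
        · rw [h0]; exact zero_mem _
        by_cases hg : x ∈ minGens S
        · exact AddSubmonoid.subset_closure hg
        have hg' : ∃ a ∈ S, ∃ b ∈ S, a + b = x ∧ a ≠ 0 ∧ b ≠ 0 := by
          by_contra hcon
          push Not at hcon
          apply hg
          refine ⟨hx, h0, ?_⟩
          intro a ha b hb hab
          by_cases ha0 : a = 0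
          · exact Or.inl ha0
          · exact Or.inr (hcon a ha b hb hab ha0)
        obtain ⟨a, ha, b, hb, hab, ha0, hb0⟩ := hg'
        rw [← hab]
        exact add_mem (ih a ha (by omega)) (ih b hb (by omega))
    intro x hx
    exact key x x hx le_rfl

/-- Every generating set contains the minimal generators. -/
theorem minGens_subset (S : AddSubmonoid ℕ) (G : Set ℕ) (hG : AddSubmonoid.closure G = S) :
    minGens S ⊆ G := by
  intro x hx
  have key : ∀ y ∈ AddSubmonoid.closure G, y ∈ minGens S → y ∈ G := by
    intro y hy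
    induction hy using AddSubmonoid.closure_induction with
    | mem y hy => exact fun _ => hy
    | zero => exact fun h => absurd rfl h.2.1
    | add a b ha hb iha ihb =>
      intro h
      rcases h.2.2 a (hG ▸ ha) b (hG ▸ hb) rfl with h0 | h0
      · rw [h0, zero_add] at h ⊢; exact ihb h
      · rw [h0, add_zero] at h ⊢; exact iha h
  exact key x (hG ▸ hx.1) hx

/-- A submonoid other than `ℕ` with finite complement has a Frobenius number. -/
theorem exists_frobenius (S : AddSubmonoid ℕ) (hS : {x | x ∉ S}.Finite) (hne : S ≠ ⊤) :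
    ∃ F, IsFrobenius S F := by
  have hne' : {x | x ∉ S}.Nonempty := by
    by_contra hcon
    rw [Set.not_nonempty_iff_eq_empty] at hcon
    refine hne ((AddSubmonoid.eq_top_iff' S).2 fun x => ?_)
    by_contra hx
    have : x ∈ {x | x ∉ S} := hx
    rw [hcon] at this
    exact this
  have h1 := Nat.sSup_mem hne' hS.bddAbove
  refine ⟨sSup {x | x ∉ S}, h1, fun n hn => ?_⟩
  by_contra hx
  have := le_csSup hS.bddAbove (show n ∈ {x | x ∉ S} from hx)
  omega

variable {S : AddSubmonoid ℕ} {F : ℕ}

theorem IsFrobenius.finite (h : IsFrobenius S F) : {x | x ∉ S}.Finite := by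
  refine (Set.finite_Iic F).subset fun x hx => ?_
  by_contra hcon
  rw [Set.mem_Iic] at hcon
  exact hx (h.2 x (by omega))

theorem IsFrobenius.cond_eq (h : IsFrobenius S F) : Pool.Agent.Helper67.WI.cond S = F + 1 := by
  unfold Pool.Agent.Helper67.WI.cond
  apply le_antisymm
  · exact Nat.sInf_le (fun n hn => h.2 n (by omega))
  · refine le_csInf ⟨F + 1, fun n hn => h.2 n (by omega)⟩ fun b hb => ?_
    by_contra hcon
    exact h.1 (hb F (by omega))

theorem IsFrobenius.left_eq (h : IsFrobenius S F) : Pool.Agent.Helper67.WI.left S = nBelow S F := by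
  unfold Pool.Agent.Helper67.WI.left nBelow
  rw [h.cond_eq]
  congr 1
  ext x
  constructor
  · rintro ⟨h1, h2⟩
    refine ⟨h1, ?_⟩
    rcases Nat.lt_or_ge x F with h3 | h3
    · exact h3
    · have : x = F := by omega
      exact absurd (this ▸ h1) h.1
  · rintro ⟨h1, h2⟩
    exact ⟨h1, by omega⟩

theorem embDim_eq (S : AddSubmonoid ℕ) : Pool.Agent.Helper67.WI.embDim S = embDim S := by
  unfold Pool.Agent.Helper67.WI.embDim embDim
  congr 1
  ext g
  constructor
  · rintro ⟨h1, h2, h3⟩
    refine ⟨h1, h2, fun a ha b hb hab => ?_⟩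
    by_contra hcon
    push Not at hcon
    exact h3 a ha b hb hcon.1 hcon.2 hab
  · rintro ⟨h1, h2, h3⟩
    refine ⟨h1, h2, fun a ha b hb ha0 hb0 hab => ?_⟩
    rcases h3 a ha b hb hab with h | h
    · exact ha0 h
    · exact hb0 h

/-- `N(F) = n(S) + g(S) = F + 1`. -/
theorem nBelow_add_genus (h : IsFrobenius S F) : nBelow S F + genus S = F + 1 := by
  classical
  have h1 : {x | x ∈ S ∧ x < F} = (((Finset.range (F + 1)).filter fun x => x ∈ S : Finset ℕ) : Set ℕ) := by
    ext x
    rw [Finset.coe_filter]
    constructor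
    · rintro ⟨h1, h2⟩
      exact ⟨Finset.mem_range.2 (by omega), h1⟩
    · rintro ⟨h1, h2⟩
      refine ⟨h2, ?_⟩
      have h4 := Finset.mem_range.1 h1
      rcases Nat.lt_or_ge x F with h3 | h3
      · exact h3
      · have : x = F := by omega
        exact absurd (this ▸ h2) h.1
  have h2 : {x | x ∉ S} = (((Finset.range (F + 1)).filter fun x => ¬ x ∈ S : Finset ℕ) : Set ℕ) := by
    ext x
    rw [Finset.coe_filter]
    constructor
    · intro h1
      refine ⟨Finset.mem_range.2 ?_, h1⟩
      by_contra hcon
      exact h1 (h.2 x (by omega))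
    · rintro ⟨h1, h2⟩
      exact h2
  unfold nBelow genus
  rw [h1, h2, Set.ncard_coe_finset, Set.ncard_coe_finset, Finset.card_filter_add_card_filter_not,
    Finset.card_range]

/-- **Wilf's inequality for all but finitely many numerical semigroups of each embedding
dimension**, with an explicit bound, and with a gain of a constant factor when the embedding
dimension is at least three and not maximal. -/
theorem result (e : ℕ) :
    {S : AddSubmonoid ℕ | embDim S = e ∧
      ∃ F, IsFrobenius S F ∧ nBelow S F * e < nBelow S F + genus S}.Finite ∧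
    (∀ (S : AddSubmonoid ℕ) (F : ℕ), embDim S = e → IsFrobenius S F →
      (12 * e ^ 2) ^ (2 * e ^ 3) ≤ F → nBelow S F * e ≥ nBelow S F + genus S) ∧
    (∀ (S : AddSubmonoid ℕ) (F : ℕ), embDim S = e → IsFrobenius S F →
      3 ≤ e → e < mult S → (12 * e ^ 2) ^ (2 * e ^ 3) ≤ F →
      (12 * e ^ 2) ^ (2 * e ^ 2) * (nBelow S F * e) ≥
        ((12 * e ^ 2) ^ (2 * e ^ 2) + 1) * (nBelow S F + genus S)) := by
  refine ⟨?_, ?_, ?_⟩
  · refine (Pool.Agent.Helper67.WI.wilf_finite e).subset ?_
    rintro S ⟨h1, F, h2, h3⟩
    refine ⟨h2.finite, ?_, ?_⟩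
    · rw [embDim_eq]
      exact h1
    · rw [embDim_eq, h1, h2.left_eq, h2.cond_eq, ← nBelow_add_genus h2, mul_comm]
      exact h3
  · intro S F h1 h2 h3
    have h4 := Pool.Agent.Helper67.WI.wilf_large S h2.finite (by
      rw [embDim_eq, h1, h2.cond_eq]
      omega)
    rw [embDim_eq, h1, h2.left_eq, h2.cond_eq, ← nBelow_add_genus h2, mul_comm] at h4
    exact h4
  · intro S F h1 h2 h3 h4 h5
    have h6 := Pool.Agent.Helper67.WI.wilf_strong S h2.finite (by rw [embDim_eq, h1]; exact h3)
      (by rw [embDim_eq, h1]; exact h4) (by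
        rw [embDim_eq, h1, h2.cond_eq]
        omega)
    rw [embDim_eq, h1, h2.left_eq, h2.cond_eq, ← nBelow_add_genus h2, mul_comm e] at h6
    exact h6

end Pool.Agent.Results.MP_4a5405_co.WilfFixedEmbeddingDimension
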